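import Mathlib
import Pool.Agent.R70.BC.Sharp
import Pool.Agent.R70.BC.BoxAsym

set_option autoImplicit false

/-!
# Diagonal Ramsey colourings of small boxicity, or covered by few complete bipartite graphs

A colouring of the edges of the complete graph on `Fin n` is a graph `G` (red) together with its
complement (blue).  `BoxGraph H d` says that `H` is the intersection graph of axis-parallel boxes
in dimension `d` (i.e. its boxicity is at most `d`), and `UnionOfBicliques G t` says that the set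
of edges of `G` is the union of the edge sets of `t` complete bipartite graphs.  If `G` is a union
of `t` complete bipartite graphs then `Gᶜ` is a box graph in dimension `t` (part 0).
The upper bounds below are proved for box graphs, the lower bounds are attained by unions of
complete bipartite graphs, so both bounds hold for both parameters.  (Every colouring on `n`
vertices has these parameters at most `n`; since `NoMono` is symmetric, the roles of the two
colours can be exchanged.)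
-/

namespace Pool.Agent.Results.MP_28724c_co.BoxesAndBicliques

/-- The colouring with colour classes `G` and `Gᶜ` has no monochromatic `K_k`. -/
def NoMono {n : ℕ} (G : SimpleGraph (Fin n)) (k : ℕ) : Prop :=
  G.CliqueFree k ∧ Gᶜ.CliqueFree k

/-- The edge set of `G` is the union of `t` complete bipartite graphs: `u` and `v` are adjacent
if and only if for some `i < t` one of them is in `A i` and the other one is in `B i`. -/
def UnionOfBicliques {n : ℕ} (G : SimpleGraph (Fin n)) (t : ℕ) : Prop :=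
  ∃ A B : Fin t → Set (Fin n), ∀ u v, G.Adj u v ↔ ∃ i, (u ∈ A i ∧ v ∈ B i) ∨ (v ∈ A i ∧ u ∈ B i)

/-- `H` is the intersection graph of the boxes `[l v, r v]` in `ℝ ^ d`: two different vertices are
adjacent if and only if their boxes intersect. -/
def BoxGraph {n : ℕ} (H : SimpleGraph (Fin n)) (d : ℕ) : Prop :=
  ∃ l r : Fin n → Fin d → ℝ, (∀ v, l v ≤ r v) ∧
    ∀ u v, u ≠ v → (H.Adj u v ↔ (Set.Icc (l u) (r u) ∩ Set.Icc (l v) (r v)).Nonempty)

theorem iff_covered {n : ℕ} (G : SimpleGraph (Fin n)) (t : ℕ) :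
    UnionOfBicliques G t ↔ Pool.Agent.R70.BC.Covered G t := by
  constructor
  · rintro ⟨A, B, h⟩
    exact ⟨A, B, fun i a ha b hb => (h a b).2 ⟨i, Or.inl ⟨ha, hb⟩⟩, fun u v huv => (h u v).1 huv⟩
  · rintro ⟨A, B, h1, h2⟩
    refine ⟨A, B, fun u v => ⟨h2 u v, ?_⟩⟩
    rintro ⟨i, ⟨ha, hb⟩ | ⟨ha, hb⟩⟩
    · exact h1 i u ha v hb
    · exact (h1 i v ha u hb).symm

theorem inter_iff {d : ℕ} (a b a' b' : Fin d → ℝ) (h : a ≤ b) (h' : a' ≤ b') :
    (Set.Icc a b ∩ Set.Icc a' b').Nonempty ↔ ∀ i, ¬ (b i < a' i ∨ b' i < a i) := by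
  rw [Set.Icc_inter_Icc, Set.nonempty_Icc, sup_le_iff, le_inf_iff, le_inf_iff]
  constructor
  · rintro ⟨⟨_, h2⟩, ⟨h3, _⟩⟩ i
    have e1 := h2 i
    have e2 := h3 i
    push Not
    exact ⟨e2, e1⟩
  · intro hi
    refine ⟨⟨h, fun i => ?_⟩, ⟨fun i => ?_, h'⟩⟩
    · have := hi i; push Not at this; exact this.2
    · have := hi i; push Not at this; exact this.1

theorem boxDisj_of_boxGraph {n : ℕ} (G : SimpleGraph (Fin n)) (t : ℕ) (h : BoxGraph Gᶜ t) :
    Pool.Agent.R70.BC.BoxDisj G t := by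
  obtain ⟨l, r, hlr, hI⟩ := h
  refine ⟨l, r, ?_, ?_⟩
  · intro i u v huv
    have hne : u ≠ v := by
      rintro rfl
      exact absurd (hlr u i) (not_le.2 huv)
    by_contra hadj
    have h1 := (hI u v hne).1 (by rw [SimpleGraph.compl_adj]; exact ⟨hne, hadj⟩)
    rw [inter_iff _ _ _ _ (hlr u) (hlr v)] at h1
    exact h1 i (Or.inl huv)
  · intro u v hadj
    have hne : u ≠ v := hadj.ne
    by_contra hcon
    push Not at hcon
    have h1 : (Set.Icc (l u) (r u) ∩ Set.Icc (l v) (r v)).Nonempty := by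
      rw [inter_iff _ _ _ _ (hlr u) (hlr v)]
      intro i
      push Not
      exact hcon i
    have h2 := (hI u v hne).2 h1
    rw [SimpleGraph.compl_adj] at h2
    exact h2.2 hadj

theorem boxGraph_of_union {n : ℕ} (G : SimpleGraph (Fin n)) (t : ℕ) (h : UnionOfBicliques G t) :
    BoxGraph Gᶜ t := by
  classical
  obtain ⟨A, B, hAB⟩ := h
  have hdis : ∀ i v, v ∈ A i → v ∉ B i := fun i v h1 h2 =>
    G.loopless.irrefl v ((hAB v v).2 ⟨i, Or.inl ⟨h1, h2⟩⟩)
  have hlr : ∀ v : Fin n, (fun i => if v ∈ B i then (1:ℝ) else 0) ≤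
      (fun i => if v ∈ A i then (0:ℝ) else 1) := by
    intro v i
    show (if v ∈ B i then (1:ℝ) else 0) ≤ (if v ∈ A i then (0:ℝ) else 1)
    by_cases hA : v ∈ A i
    · simp [hA, hdis i v hA]
    · by_cases hB : v ∈ B i <;> simp [hA, hB]
  refine ⟨fun v i => if v ∈ B i then 1 else 0, fun v i => if v ∈ A i then 0 else 1, hlr, ?_⟩
  intro u v huv
  rw [inter_iff _ _ _ _ (hlr u) (hlr v), SimpleGraph.compl_adj, hAB]
  have key : ∀ i (a b : Fin n), ((if a ∈ A i then (0:ℝ) else 1) < (if b ∈ B i then (1:ℝ) else 0)) ↔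
      (a ∈ A i ∧ b ∈ B i) := by
    intro i a b
    by_cases h1 : a ∈ A i <;> by_cases h2 : b ∈ B i <;> simp [h1, h2]
  constructor
  · rintro ⟨_, h2⟩ i hi
    apply h2
    rcases hi with hi | hi
    · exact ⟨i, Or.inl ((key i u v).1 hi)⟩
    · exact ⟨i, Or.inr ((key i v u).1 hi)⟩
  · intro h2
    refine ⟨huv, ?_⟩
    rintro ⟨i, hi | hi⟩
    · exact h2 i (Or.inl ((key i u v).2 hi))
    · exact h2 i (Or.inr ((key i v u).2 hi))

open Pool.Agent.R70.BC in
/-- **Main result.** -/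
theorem result :
    -- (0) complements of unions of `t` complete bipartite graphs are box graphs in dimension `t`
    (∀ (n t : ℕ) (G : SimpleGraph (Fin n)), UnionOfBicliques G t → BoxGraph Gᶜ t) ∧
    -- (1) finite upper bounds, for blue graphs that are box graphs in dimension `t`
    (∀ (n t x y j : ℕ) (G : SimpleGraph (Fin n)), BoxGraph Gᶜ t →
      G.CliqueFree (x + 1) → Gᶜ.CliqueFree (y + 1) → 2 ^ j ≤ x →
      n ≤ (2 * t + 1) ^ j * (x / 2 ^ j + y).choose (x / 2 ^ j)) ∧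
    (∀ (n t x y : ℕ) (G : SimpleGraph (Fin n)), BoxGraph Gᶜ t →
      G.CliqueFree (x + 1) → Gᶜ.CliqueFree (y + 1) → n ≤ y * (2 * t + 1) ^ (Nat.log 2 x)) ∧
    -- (2) growth rate, upper bound: at most `6 ε log (2 / ε)` for dimension `t ≤ exp (ε k)`
    (∀ ε : ℝ, 0 < ε → ε ≤ 1 → ∃ K : ℕ, ∀ k : ℕ, K ≤ k → ∀ (n t : ℕ) (G : SimpleGraph (Fin n)),
      NoMono G k → BoxGraph Gᶜ t → (t : ℝ) ≤ Real.exp (ε * k) →
        Real.log n ≤ 6 * (ε * Real.log (2 / ε)) * k) ∧
    -- (3) growth rate, lower bound of the same order, already for unions of bicliques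
    (∀ ε : ℝ, 0 < ε → ε ≤ 1 / 2 ^ 22 → ∃ K : ℕ, ∀ k : ℕ, K ≤ k →
      ∃ (n t : ℕ) (G : SimpleGraph (Fin n)), NoMono G k ∧ UnionOfBicliques G t ∧ BoxGraph Gᶜ t ∧
        (t : ℝ) ≤ Real.exp (ε * k) ∧ 1 / 2400 * (ε * Real.log (2 / ε)) * k ≤ Real.log n) ∧
    -- (4) for a colouring without monochromatic `K_k` on `n ≥ exp (θ k)` vertices the boxicity `t`
    -- of each colour satisfies `2 t + 1 ≥ n ^ (1 / (24 log (2 / θ)))`
    (∀ θ : ℝ, 0 < θ → θ ≤ 1 → ∃ K : ℕ, ∀ k : ℕ, K ≤ k → ∀ (n t : ℕ) (G : SimpleGraph (Fin n)),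
      NoMono G k → BoxGraph Gᶜ t → Real.exp (θ * k) ≤ n →
        (n : ℝ) ^ (1 / (24 * Real.log (2 / θ))) ≤ 2 * t + 1) ∧
    -- (5) and for small `θ` it can be as small as `n ^ (4800 / log (2 / θ))`
    (∀ θ : ℝ, 0 < θ → θ ≤ 1 / 10 ^ 10 → ∃ K : ℕ, ∀ k : ℕ, K ≤ k →
      ∃ (n t : ℕ) (G : SimpleGraph (Fin n)), NoMono G k ∧ UnionOfBicliques G t ∧ BoxGraph Gᶜ t ∧
        Real.exp (θ * k) ≤ n ∧ (t : ℝ) ≤ (n : ℝ) ^ (4800 / Real.log (2 / θ))) ∧
    -- (6) explicitly: on at least `2 ^ (k / 2)` vertices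
    (∀ (n k t : ℕ) (G : SimpleGraph (Fin n)), 65 ≤ k → NoMono G k → (2 : ℝ) ^ ((k : ℝ) / 2) ≤ n →
      BoxGraph Gᶜ t → n ≤ (2 * t + 1) ^ 8) := by
  refine ⟨?_, ?_, ?_, ?_, ?_, ?_, ?_, ?_⟩
  · intro n t G hG
    exact boxGraph_of_union G t hG
  · intro n t x y j G hG hx hy hj
    exact bupper G (boxDisj_of_boxGraph G t hG) hx hy hj
  · intro n t x y G hG hx hy
    exact bupper_log G (boxDisj_of_boxGraph G t hG) hx hy
  · intro ε h1 h2
    obtain ⟨K, hK⟩ := bgrowth_upper ε h1 h2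
    exact ⟨K, fun k hk n t G hG hU ht => hK k hk n t G hG.1 hG.2 (boxDisj_of_boxGraph G t hU) ht⟩
  · intro ε h1 h2
    obtain ⟨K, hK⟩ := lower ε h1 h2
    refine ⟨K, fun k hk => ?_⟩
    obtain ⟨n, G, g1, g2, g3, g4⟩ := hK k hk
    have g5 := (iff_covered G _).2 g3
    exact ⟨n, _, G, ⟨g1, g2⟩, g5, boxGraph_of_union G _ g5, Nat.floor_le (Real.exp_pos _).le, g4⟩
  · intro θ h1 h2
    obtain ⟨K, hK⟩ := bmany_needed θ h1 h2
    exact ⟨K, fun k hk n t G hG hU hn => hK k hk n t G hG.1 hG.2 (boxDisj_of_boxGraph G t hU) hn⟩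
  · intro θ h1 h2
    obtain ⟨K, hK⟩ := sharp θ h1 h2
    refine ⟨K, fun k hk => ?_⟩
    obtain ⟨n, t, G, g1, g2, g3, g4, g5⟩ := hK k hk
    have g6 := (iff_covered G _).2 g3
    exact ⟨n, t, G, ⟨g1, g2⟩, g6, boxGraph_of_union G _ g6, g4, g5⟩
  · intro n k t G hk hG hn hU
    exact beighth_power G hk hG.1 hG.2 hn (boxDisj_of_boxGraph G t hU)

end Pool.Agent.Results.MP_28724c_co.BoxesAndBicliques
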