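import Pool.Agent.R734.CK.Extremal

/-!
# MP_28724c_co: Ramsey colourings determined by few comparisons

A red/blue colouring of the edges of `K_n` is encoded by the graph `G` of its red edges on the
ordered vertex set `0 < 1 < ... < n - 1`. We measure its complexity by the number `d` of comparisons
`f_l y < g_l x` of real functions of the vertices that determine the colour of every pair `x < y`.
Every colouring of `K_n` is determined by `2 ⌈log₂ n⌉` comparisons, so for `d ≥ 4 k` the restricted
Ramsey numbers are the full numbers `R(k,k)`; the theorem determines the growth of the restricted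
numbers for `d ≤ k / 64` up to a constant factor in the exponent.
-/

set_option autoImplicit false

namespace Pool.Agent.Results.MP_28724c_co.ComparisonComplexity

/-- There are `d` pairs of real functions `f l`, `g l` of the vertices such that the colour of a
pair `x < y` depends only on the `d` truth values of `f l y < g l x`. -/
def DeterminedBy {n : ℕ} (G : SimpleGraph (Fin n)) (d : ℕ) : Prop :=
  ∃ f g : Fin d → Fin n → ℝ, ∀ x y x' y' : Fin n, x < y → x' < y' →
    (∀ l, f l y < g l x ↔ f l y' < g l x') → (G.Adj x y ↔ G.Adj x' y')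

/-- The colouring of the edges of `K_n` with colour classes `G` and `Gᶜ` has no monochromatic
`K_k`. -/
def NoMono {n : ℕ} (G : SimpleGraph (Fin n)) (k : ℕ) : Prop :=
  G.CliqueFree k ∧ Gᶜ.CliqueFree k

/-- The diagonal Ramsey number `R(k,k)`. -/
noncomputable def ramsey (k : ℕ) : ℕ :=
  sInf {n : ℕ | ∀ G : SimpleGraph (Fin n), ¬ NoMono G k}

/-- **Main result.** -/
theorem result :
    -- (1) upper bound: `d` comparisons and no monochromatic `K_k` imply `log n ≤ 8 d log (2 k / d)`
    (∀ n k d : ℕ, 1 ≤ d → d ≤ k → ∀ G : SimpleGraph (Fin n), NoMono G k → DeterminedBy G d →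
      Real.log n ≤ 8 * d * Real.log (2 * k / d)) ∧
    -- (2) lower bound of the same order
    (∀ d k : ℕ, 1 ≤ d → 64 * d ≤ k → ∃ (n : ℕ) (G : SimpleGraph (Fin n)),
      NoMono G k ∧ DeterminedBy G d ∧ (d / 16 : ℝ) * Real.log (k / d) ≤ Real.log n) ∧
    -- (3) the growth rate of the numbers for `⌊ε k⌋` comparisons is at most `16 ε log (2 / ε)`
    (∀ ε : ℝ, 0 < ε → ε ≤ 1 → ∀ k : ℕ, 1 ≤ ε * k → ∀ (n : ℕ) (G : SimpleGraph (Fin n)),
      NoMono G k → DeterminedBy G ⌊ε * k⌋₊ → Real.log n / k ≤ 16 * ε * Real.log (2 / ε)) ∧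
    -- and at least `(1 / 32) ε log (1 / ε)` for `ε ≤ 1 / 64`
    (∀ ε : ℝ, 0 < ε → ε ≤ 1 / 64 → ∀ k : ℕ, 1 ≤ ε * k → ∃ (n : ℕ) (G : SimpleGraph (Fin n)),
      NoMono G k ∧ DeterminedBy G ⌊ε * k⌋₊ ∧ ε / 32 * Real.log (1 / ε) ≤ Real.log n / k) ∧
    -- (4) a colouring of at least `exp (θ k)` vertices without monochromatic `K_k` needs at least
    -- `θ k / (64 log (2 / θ))` comparisons
    (∀ θ : ℝ, 0 < θ → θ ≤ 1 → ∀ k d n : ℕ, 1 ≤ d → ∀ G : SimpleGraph (Fin n), NoMono G k →
      DeterminedBy G d → Real.exp (θ * k) ≤ n → θ / (64 * Real.log (2 / θ)) * k ≤ d) ∧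
    -- (5) `2 m` comparisons suffice for every colouring of at most `2 ^ m` vertices, so the model
    -- with `4 k` comparisons contains all colourings without monochromatic `K_k`
    (∀ n m : ℕ, n ≤ 2 ^ m → ∀ G : SimpleGraph (Fin n), DeterminedBy G (2 * m)) ∧
    -- every extremal colouring (on `R(k,k) - 1` vertices) is determined by `4 k` comparisons, but
    -- not by fewer than `k / 600`
    (∀ k n : ℕ, 4 ≤ k → n + 1 = ramsey k → ∀ G : SimpleGraph (Fin n), NoMono G k →
      DeterminedBy G (4 * k) ∧ ∀ d : ℕ, DeterminedBy G d → k ≤ 600 * d) := by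
  refine ⟨?_, ?_, ?_, ?_, ?_, ?_, ?_⟩
  · intro n k d h1 h2 G h3 h4
    exact R734.CK.upper_log h1 h2 G h3 h4
  · intro d k h1 h2
    exact R734.CK.lower_log d k h1 h2
  · intro ε h1 h2 k h3 n G h4 h5
    exact R734.CK.rate_upper ε h1 h2 k h3 n G h4 h5
  · intro ε h1 h2 k h3
    exact R734.CK.rate_lower ε h1 h2 k h3
  · intro θ h1 h2 k d n h3 G h4 h5 h6
    exact R734.CK.many_comparisons θ h1 h2 k d n h3 G h4 h5 h6
  · intro n m h G
    exact R734.CK.all_determined G h
  · intro k n h1 h2 G h3
    exact R734.CK.extremal h1 G h2 h3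

end Pool.Agent.Results.MP_28724c_co.ComparisonComplexity
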