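import Mathlib
import Pool.Agent.R558.LowDeg.Upper
import Pool.Agent.R558.LowDeg.LowerSym
import Pool.Agent.R558.LowDeg.Graph

/-!
# Growth rate of the diagonal Ramsey numbers of colourings of low degree over `F_2`

The vertices are the `2 ^ m` points of `F_2 ^ m`.  A colouring of the edges is computed by
polynomials `P l` over `F_2` in the `2 * m` coordinates of two vertices if the colour of every edge
is a function of the values of the `P l` at some ordering of its two ends.
-/

set_option autoImplicit false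

namespace Pool.Agent.Results.MP_28724c_co.LowDegreeGrowth

open MvPolynomial Filter

/-- The `2 * m` coordinates of two points of `F_2 ^ m`. -/
def coords {m : ℕ} (v : Fin 2 → Fin m → ZMod 2) : Fin 2 × Fin m → ZMod 2 :=
  fun z => v z.1 z.2

/-- Every pair `A` of points of `F_2 ^ m` can be ordered as `v 0, v 1` such that the colour of `A` is
`g` of the values of the polynomials `P l` at the coordinates of `v`. -/
def ComputedBy {κ : Type} (m s : ℕ) (c : Finset (Fin m → ZMod 2) → κ)
    (P : Fin s → MvPolynomial (Fin 2 × Fin m) (ZMod 2)) (g : (Fin s → ZMod 2) → κ) : Prop :=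
  ∀ A : Finset (Fin m → ZMod 2), A.card = 2 → ∃ v : Fin 2 → Fin m → ZMod 2,
    Function.Injective v ∧ Finset.univ.image v = A ∧ c A = g (fun l => eval (coords v) (P l))

/-- All pairs inside `X` have the same colour. -/
def Homogeneous {κ : Type} {m : ℕ} (c : Finset (Fin m → ZMod 2) → κ)
    (X : Finset (Fin m → ZMod 2)) : Prop :=
  ∀ A ⊆ X, ∀ A' ⊆ X, A.card = 2 → A'.card = 2 → c A = c A'

/-- Every colouring, with any set of colours, of the pairs of points of `F_2 ^ m` that is computed
by `s` polynomials of degree at most `D` has a homogeneous set with `k` elements. -/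
def Arrow (m s D k : ℕ) : Prop :=
  ∀ (κ : Type) (c : Finset (Fin m → ZMod 2) → κ)
    (P : Fin s → MvPolynomial (Fin 2 × Fin m) (ZMod 2)) (g : (Fin s → ZMod 2) → κ),
    (∀ l, (P l).totalDegree ≤ D) → ComputedBy m s c P g →
      ∃ X : Finset (Fin m → ZMod 2), X.card = k ∧ Homogeneous c X

/-- The same for the two-colourings whose colour is the value of one polynomial of degree at most
`D` at both orderings of the pair. -/
def SymArrow (m D k : ℕ) : Prop :=
  ∀ (c : Finset (Fin m → ZMod 2) → ZMod 2) (P : MvPolynomial (Fin 2 × Fin m) (ZMod 2)),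
    P.totalDegree ≤ D →
    (∀ v : Fin 2 → Fin m → ZMod 2, Function.Injective v →
      c (Finset.univ.image v) = eval (coords v) P) →
      ∃ X : Finset (Fin m → ZMod 2), X.card = k ∧ Homogeneous c X

/-- Growth rates of the diagonal Ramsey numbers of low degree colourings of `2 ^ m` vertices.
(1) Degree at most `(log₂ k) / 5`: for large `k` every colouring of at least `2 ^ (k ^ (19 / 20))`
vertices that is computed by `s` polynomials of degree at most `D` has a homogeneous set of size
`k`; so the growth rate is zero.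
(2) Degree `D ≥ log₂ k` (rounded down), `k ≥ 36`: for `m ≤ k / 9` some two-colouring of degree at
most `D` of `2 ^ m` vertices has no homogeneous set of size `k`; the growth rate is positive.
(3) Degree `D ≥ (1 + δ) log₂ k`: the same for `m ≤ (1 / 2 - ε) k` and large `k`; so the growth rate
is at least `(log 2) / 2`, the lower bound of Erdős for the unrestricted numbers. -/
theorem result :
    (∀ s : ℕ, ∀ᶠ k : ℕ in atTop, ∀ D m : ℕ, 5 * D ≤ Nat.log 2 k →
      (k : ℝ) ^ (19 / 20 : ℝ) ≤ m → Arrow m s D k) ∧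
    (∀ k D m : ℕ, 36 ≤ k → Nat.log 2 k ≤ D → 9 * m ≤ k → ¬ SymArrow m D k) ∧
    (∀ δ ε : ℝ, 0 < δ → 0 < ε → ∀ᶠ k : ℕ in atTop, ∀ D m : ℕ,
      (1 + δ) * Nat.log 2 k ≤ D → (m : ℝ) ≤ (1 / 2 - ε) * k → ¬ SymArrow m D k) := by
  classical
  have h2 : ∀ m k D : ℕ, (∃ S, 3 ≤ S ∧ m * S ≤ S.choose 2 ∧
      S ≤ Pool.Agent.R558.LowDeg.G (D / 2 + 1) k) → ¬ SymArrow m D k := by
    rintro m k D ⟨S, hS, hm, hk⟩ hcon
    obtain ⟨c, P, hP, hc, hX⟩ := Pool.Agent.R558.LowDeg.lower_col 2 (D / 2) S m k hS hm hk
    obtain ⟨X, hXk, hXh⟩ := hcon c P (hP.trans (Nat.mul_div_le D 2)) hc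
    exact hX X hXk hXh
  refine ⟨?_, ?_, ?_⟩
  · intro s
    obtain ⟨t₀, ht₀⟩ := Pool.Agent.R558.LowDeg.quant_graph s
    filter_upwards [eventually_ge_atTop (2 ^ (t₀ + 5) + 1)] with k hk
    intro D m hD hm
    have hpos : 0 < 2 ^ (t₀ + 5) := by positivity
    have ht1 : 2 ^ Nat.log 2 (k - 1) ≤ k := by
      have := Nat.pow_log_le_self 2 (show k - 1 ≠ 0 by omega)
      omega
    have ht2 : k ≤ 2 ^ (Nat.log 2 (k - 1) + 1) := by
      have := Nat.lt_pow_succ_log_self (show 1 < 2 by norm_num) (k - 1)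
      rw [Nat.succ_eq_add_one] at this
      omega
    have ht3 : t₀ + 5 ≤ Nat.log 2 (k - 1) := Nat.le_log_of_pow_le (by norm_num) (by omega)
    have hlog : Nat.log 2 k ≤ Nat.log 2 (k - 1) + 1 :=
      (Nat.log_mono_right ht2).trans (Nat.log_pow (by norm_num) _).le
    have hm' : ((2 : ℝ) ^ Nat.log 2 (k - 1)) ^ (19 / 20 : ℝ) ≤ m := by
      refine le_trans ?_ hm
      refine Real.rpow_le_rpow (by positivity) ?_ (by norm_num)
      exact_mod_cast ht1
    have h3 := ht₀ (Nat.log 2 (k - 1)) (by omega) (max D 1) (by omega) m hm'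
    intro κ c P g hP hc
    exact Pool.Agent.R558.LowDeg.upper 2 m s (max D 1) _ k (le_max_right _ _) ht2 h3 κ c P g
      (fun l => (hP l).trans (le_max_left _ _)) hc
  · intro k D m hk hD hm
    exact h2 m k D (Pool.Agent.R558.LowDeg.graph_mid k D m hk hD hm)
  · intro δ ε hδ hε
    filter_upwards [Pool.Agent.R558.LowDeg.graph_high δ ε hδ hε] with k hk
    intro D m hD hm
    exact h2 m k D (hk D hD m hm)

end Pool.Agent.Results.MP_28724c_co.LowDegreeGrowth
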