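import Pool.Agent.R51.Stair.Small

/-!
# MP_28724c_co: the exact growth rate of the Ramsey numbers of colourings described by monotone curves

A colouring of the edges of the complete graph on `0, …, n - 1` is a graph `G` (red) with its
complement (blue).  It is described by at most `t` monotone curves if there are at most `t` functions
`φ`, each of them nondecreasing or nonincreasing, such that the colour of the pair `x < y` depends only
on the answers to the questions `y < φ x`.  (The vertices are numbered arbitrarily, so the results hold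
for every order of the vertices.  Every colouring is described by `2 n` curves.)
-/

set_option autoImplicit false

open Filter Topology

namespace Pool.Agent.Results.MP_28724c_co.MonotoneCurves

/-- The colouring with colour classes `G` and `Gᶜ` has no monochromatic `K_k`. -/
def NoMono {n : ℕ} (G : SimpleGraph (Fin n)) (k : ℕ) : Prop :=
  G.CliqueFree k ∧ Gᶜ.CliqueFree k

/-- The colouring `G` is described by at most `t` monotone curves: there are at most `t` monotone
(nondecreasing or nonincreasing) functions `φ` such that the colour of a pair `x < y` is determined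
by the truth values of the inequalities `y < φ x`. -/
def Curves {n : ℕ} (G : SimpleGraph (Fin n)) (t : ℕ) : Prop :=
  ∃ F : Finset (Fin n → ℕ), F.card ≤ t ∧ (∀ φ ∈ F, Monotone φ ∨ Antitone φ) ∧
    ∀ x y x' y' : Fin n, x < y → x' < y' →
      (∀ φ ∈ F, (y : ℕ) < φ x ↔ (y' : ℕ) < φ x') → (G.Adj x y ↔ G.Adj x' y')

/-- The diagonal Ramsey number `R(k,k)`. -/
noncomputable def ramsey (k : ℕ) : ℕ := sInf {n : ℕ | ∀ G : SimpleGraph (Fin n), ¬ NoMono G k}

/-- The Ramsey number of the colourings described by at most `t` monotone curves: the least `n` such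
that all such colourings of the edges of `K_n` contain a monochromatic `K_k`. -/
noncomputable def curveRamsey (t k : ℕ) : ℕ :=
  sInf {n : ℕ | ∀ G : SimpleGraph (Fin n), Curves G t → ¬ NoMono G k}

/-- **Main result.** -/
theorem result :
    -- (1) every colouring of `K_n` is described by `2 n` monotone curves
    (∀ (n : ℕ) (G : SimpleGraph (Fin n)), Curves G (2 * n)) ∧
    -- (2) finite upper bound
    (∀ (n k t p s : ℕ) (G : SimpleGraph (Fin n)), Curves G t → NoMono G k → 1 ≤ p → k ≤ p * s →
      n < (16 * t + 2) * 4 ^ p * (s + k).choose s) ∧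
    (∀ (n k t : ℕ) (G : SimpleGraph (Fin n)), 2 ≤ k → Curves G t → NoMono G k →
      Real.log n ≤ Real.log (t + 1) + 10 * Real.sqrt (k * Real.log k)) ∧
    -- (3) up to the factor `exp (10 √(k log k))` the Ramsey number is the minimum of `t` and `R(k,k)`
    (∀ t k : ℕ, 2 ≤ k → min (t / 2 + 1) (ramsey k) ≤ curveRamsey t k ∧
      curveRamsey t k ≤ ramsey k ∧
      (curveRamsey t k : ℝ) ≤ 2 * ((t + 1) * Real.exp (10 * Real.sqrt (k * Real.log k)))) ∧
    -- (4) the exact growth rate for `exp (ε k)` curves is the minimum of `ε` and `log R(k,k) / k`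
    (∀ ε : ℝ, 0 < ε → Tendsto (fun k : ℕ => Real.log (curveRamsey ⌊Real.exp (ε * k)⌋₊ k) / k -
      min ε (Real.log (ramsey k) / k)) atTop (𝓝 0)) ∧
    -- (5) in particular it is `ε` for `ε ≤ (log 2) / 2`
    (∀ ε : ℝ, 0 < ε → ε ≤ Real.log 2 / 2 →
      Tendsto (fun k : ℕ => Real.log (curveRamsey ⌊Real.exp (ε * k)⌋₊ k) / k) atTop (𝓝 ε)) ∧
    -- (6) colourings without monochromatic `K_k` on at least `exp (θ k)` vertices need
    -- `n ^ (1 - δ)` curves, for every order of the vertices
    (∀ θ δ : ℝ, 0 < θ → 0 < δ → δ < 1 → ∃ K : ℕ, ∀ k : ℕ, K ≤ k →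
      ∀ (n t : ℕ) (G : SimpleGraph (Fin n)), NoMono G k → Curves G t → Real.exp (θ * k) ≤ n →
        (n : ℝ) ^ (1 - δ) ≤ t) ∧
    -- (7) the order of magnitude of the logarithm for small `t`: upper bound
    (∀ (n k t : ℕ) (G : SimpleGraph (Fin n)), 16 ≤ t → 2 ≤ k → Curves G t → NoMono G k →
      Real.log n ≤ 27 * (Real.log t * Real.log k / Real.log (Real.log t))) ∧
    -- and lower bound, for `(2 log k) ^ 2 ≤ t ≤ 2 ^ k`
    (∀ k t : ℕ, 16 ≤ t → (2 * Real.log k) ^ 2 ≤ t → t ≤ 2 ^ k →
      ∃ (n : ℕ) (G : SimpleGraph (Fin n)), Curves G t ∧ NoMono G k ∧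
        1 / 80 * (Real.log t * Real.log k / Real.log (Real.log t)) ≤ Real.log n) ∧
    -- (8) an example: if the colour of `x < y` is a function `f` of the distance `y - x` and changes
    -- at most `t` times, then the colouring is described by at most `t` curves
    (∀ (n t : ℕ) (G : SimpleGraph (Fin n)) (f : ℕ → Bool),
      (∀ x y : Fin n, x < y → (G.Adj x y ↔ f ((y : ℕ) - x) = true)) →
      ((Finset.range n).filter (fun d => 1 ≤ d ∧ d + 1 < n ∧ f d ≠ f (d + 1))).card ≤ t →
        Curves G t) := by
  refine ⟨?_, ?_, ?_, ?_, ?_, ?_, ?_, ?_, ?_, ?_⟩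
  · exact fun n G => Pool.Agent.R51.Stair.curves_all G le_rfl
  · exact fun n k t p s G hc hG hp hs => Pool.Agent.R51.Stair.main_graph hc hG hp hs
  · exact fun n k t G hk hc hG => Pool.Agent.R51.Stair.log_upper hk hc hG
  · exact fun t k hk => ⟨Pool.Agent.R51.Stair.le_curveRamsey t k,
      Pool.Agent.R51.Stair.curveRamsey_le_ramsey t k, Pool.Agent.R51.Stair.curveRamsey_le t hk⟩
  · exact fun ε hε => Pool.Agent.R51.Stair.growth hε
  · exact fun ε hε hε2 => Pool.Agent.R51.Stair.growth_small hε hε2
  · exact fun θ δ hθ hδ hδ1 => Pool.Agent.R51.Stair.many_curves hθ hδ hδ1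
  · exact fun n k t G ht hk hc hG => Pool.Agent.R51.Stair.small_upper ht hk hc hG
  · exact fun k t ht h1 h2 => Pool.Agent.R51.Stair.small_lower ht h1 h2
  · exact fun n t G f hG hf => Pool.Agent.R51.Stair.curves_distance G f hG hf

end Pool.Agent.Results.MP_28724c_co.MonotoneCurves
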